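import Mathlib

/-!
# CR-K1: Karamata's Tauberian theorem
-/

set_option autoImplicit false

namespace Pool.Agent.Helper16.CR

open Filter Topology MeasureTheory Set

namespace Kar

variable {f : ℝ → ℝ}

theorem exp_mem {s t : ℝ} (hs : 0 < s) (ht : 0 < t) : Real.exp (-s * t) ∈ Icc (0 : ℝ) 1 := by
  refine ⟨(Real.exp_pos _).le, ?_⟩
  rw [Real.exp_le_one_iff]
  have := mul_pos hs ht
  linarith

theorem int_weight
    (hint : ∀ s : ℝ, 0 < s → IntegrableOn (fun t => f t * Real.exp (-s * t)) (Ioi (0 : ℝ)))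
    {g : ℝ → ℝ} (hg : Continuous g) {s : ℝ} (hs : 0 < s) :
    IntegrableOn (fun t => f t * Real.exp (-s * t) * g (Real.exp (-s * t))) (Ioi (0 : ℝ)) := by
  obtain ⟨M, hM⟩ := isCompact_Icc.exists_bound_of_continuousOn (s := Icc (0 : ℝ) 1) hg.continuousOn
  have h1 := hint s hs
  refine Integrable.mono' (h1.norm.const_mul M) ?_ ?_
  · refine h1.aestronglyMeasurable.mul ?_
    exact (hg.comp (by fun_prop : Continuous fun t : ℝ => Real.exp (-s * t))).aestronglyMeasurable
  · filter_upwards [ae_restrict_mem measurableSet_Ioi] with t ht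
    rw [norm_mul, mul_comm M]
    exact mul_le_mul_of_nonneg_left (hM _ (exp_mem hs ht)) (norm_nonneg _)

theorem poly_lim {c : ℝ}
    (hint : ∀ s : ℝ, 0 < s → IntegrableOn (fun t => f t * Real.exp (-s * t)) (Ioi (0 : ℝ)))
    (hlim : Tendsto (fun s : ℝ => s * ∫ t in Ioi (0 : ℝ), f t * Real.exp (-s * t)) (𝓝[>] 0) (𝓝 c))
    (p : Polynomial ℝ) :
    Tendsto (fun s : ℝ => s * ∫ t in Ioi (0 : ℝ), f t * Real.exp (-s * t) *
      p.eval (Real.exp (-s * t))) (𝓝[>] 0) (𝓝 (c * ∫ x in (0 : ℝ)..1, p.eval x)) := by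
  induction p using Polynomial.induction_on' with
  | add p q hp hq =>
    have e1 : c * ∫ x in (0 : ℝ)..1, (p + q).eval x =
        c * (∫ x in (0 : ℝ)..1, p.eval x) + c * ∫ x in (0 : ℝ)..1, q.eval x := by
      rw [← mul_add, ← intervalIntegral.integral_add
        (p.continuous.intervalIntegrable _ _) (q.continuous.intervalIntegrable _ _)]
      simp only [Polynomial.eval_add]
    rw [e1]
    refine (hp.add hq).congr' ?_
    filter_upwards [self_mem_nhdsWithin] with s hs
    rw [← mul_add, ← integral_add (int_weight hint p.continuous hs)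
      (int_weight hint q.continuous hs)]
    simp only [Polynomial.eval_add, mul_add]
  | monomial n a =>
    have hn : (0 : ℝ) < n + 1 := by positivity
    have e1 : c * ∫ x in (0 : ℝ)..1, (Polynomial.monomial n a).eval x = a / (n + 1) * c := by
      simp only [Polynomial.eval_monomial]
      rw [intervalIntegral.integral_const_mul, integral_pow]
      simp
      ring
    rw [e1]
    have h1 : Tendsto (fun s : ℝ => (n + 1) * s) (𝓝[>] 0) (𝓝[>] 0) := by
      rw [tendsto_nhdsWithin_iff]
      constructor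
      · have h2 : Tendsto (fun s : ℝ => (n + 1) * s) (𝓝 0) (𝓝 ((n + 1) * 0)) :=
          (continuous_const.mul continuous_id).tendsto 0
        rw [mul_zero] at h2
        exact h2.mono_left nhdsWithin_le_nhds
      · filter_upwards [self_mem_nhdsWithin] with s hs
        exact mul_pos hn hs
    refine ((hlim.comp h1).const_mul (a / (n + 1))).congr' ?_
    filter_upwards [self_mem_nhdsWithin] with s hs
    have e2 : ∀ t : ℝ, f t * Real.exp (-s * t) * (Polynomial.monomial n a).eval
        (Real.exp (-s * t)) = a * (f t * Real.exp (-((n + 1) * s) * t)) := by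
      intro t
      have e3 : Real.exp (-((n + 1) * s) * t) = Real.exp (-s * t) * Real.exp (-s * t) ^ n := by
        rw [← Real.exp_nat_mul, ← Real.exp_add]
        congr 1
        ring
      rw [Polynomial.eval_monomial, e3]
      ring
    simp only [Function.comp_def, e2]
    rw [integral_const_mul]
    field_simp

theorem cont_lim {c : ℝ} (hf0 : ∀ t, 0 ≤ f t)
    (hint : ∀ s : ℝ, 0 < s → IntegrableOn (fun t => f t * Real.exp (-s * t)) (Ioi (0 : ℝ)))
    (hlim : Tendsto (fun s : ℝ => s * ∫ t in Ioi (0 : ℝ), f t * Real.exp (-s * t)) (𝓝[>] 0) (𝓝 c))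
    {g : ℝ → ℝ} (hg : Continuous g) :
    Tendsto (fun s : ℝ => s * ∫ t in Ioi (0 : ℝ), f t * Real.exp (-s * t) *
      g (Real.exp (-s * t))) (𝓝[>] 0) (𝓝 (c * ∫ x in (0 : ℝ)..1, g x)) := by
  rw [Metric.tendsto_nhds]
  intro e he
  set K : ℝ := |c| + 1 with hK
  have hK0 : 0 < K := by positivity
  set d : ℝ := e / (3 * K) with hd
  have hd0 : 0 < d := by positivity
  obtain ⟨p, hp⟩ := exists_polynomial_near_of_continuousOn 0 1 g hg.continuousOn d hd0
  have h1 := (Metric.tendsto_nhds.1 (poly_lim hint hlim p)) (e / 3) (by positivity)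
  have h2 : ∀ᶠ s in 𝓝[>] (0 : ℝ), s * ∫ t in Ioi (0 : ℝ), f t * Real.exp (-s * t) < K :=
    hlim.eventually_lt_const (by rw [hK]; linarith [le_abs_self c])
  filter_upwards [h1, h2, self_mem_nhdsWithin] with s h1 h2 hs
  have hs' : (0 : ℝ) < s := hs
  rw [Real.dist_eq] at h1 ⊢
  have e1 : |(s * ∫ t in Ioi (0 : ℝ), f t * Real.exp (-s * t) * g (Real.exp (-s * t))) -
      s * ∫ t in Ioi (0 : ℝ), f t * Real.exp (-s * t) * p.eval (Real.exp (-s * t))| ≤ d * K := by
    rw [← mul_sub, ← integral_sub (int_weight hint hg hs') (int_weight hint p.continuous hs'),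
      abs_mul, abs_of_pos hs']
    have h3 : |∫ t in Ioi (0 : ℝ), (f t * Real.exp (-s * t) * g (Real.exp (-s * t)) -
        f t * Real.exp (-s * t) * p.eval (Real.exp (-s * t)))| ≤
        ∫ t in Ioi (0 : ℝ), d * (f t * Real.exp (-s * t)) := by
      rw [← Real.norm_eq_abs]
      refine norm_integral_le_of_norm_le ((hint s hs').const_mul d) ?_
      filter_upwards [ae_restrict_mem measurableSet_Ioi] with t ht
      have h4 : 0 ≤ f t * Real.exp (-s * t) := mul_nonneg (hf0 t) (Real.exp_pos _).le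
      rw [← mul_sub, norm_mul, Real.norm_eq_abs, Real.norm_eq_abs, abs_of_nonneg h4, mul_comm d,
        abs_sub_comm]
      exact mul_le_mul_of_nonneg_left (hp _ (exp_mem hs' ht)).le h4
    rw [integral_const_mul] at h3
    calc s * |∫ t in Ioi (0 : ℝ), (f t * Real.exp (-s * t) * g (Real.exp (-s * t)) -
        f t * Real.exp (-s * t) * p.eval (Real.exp (-s * t)))| ≤
          s * (d * ∫ t in Ioi (0 : ℝ), f t * Real.exp (-s * t)) :=
          mul_le_mul_of_nonneg_left h3 hs'.le
      _ = d * (s * ∫ t in Ioi (0 : ℝ), f t * Real.exp (-s * t)) := by ring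
      _ ≤ d * K := mul_le_mul_of_nonneg_left h2.le hd0.le
  have e2 : |(c * ∫ x in (0 : ℝ)..1, p.eval x) - c * ∫ x in (0 : ℝ)..1, g x| ≤ |c| * d := by
    rw [← mul_sub, ← intervalIntegral.integral_sub (p.continuous.intervalIntegrable _ _)
      (hg.intervalIntegrable _ _), abs_mul]
    refine mul_le_mul_of_nonneg_left ?_ (abs_nonneg _)
    have h3 := intervalIntegral.norm_integral_le_of_norm_le_const (a := (0 : ℝ)) (b := 1)
      (f := fun x => p.eval x - g x) (C := d) (by
        intro x hx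
        rw [uIoc_of_le zero_le_one] at hx
        exact (hp x ⟨hx.1.le, hx.2⟩).le)
    simpa using h3
  have e3 : d * K = e / 3 := by
    rw [hd]
    field_simp
  have e4 : |c| * d ≤ d * K := by
    rw [mul_comm]
    exact mul_le_mul_of_nonneg_left (by rw [hK]; linarith) hd0.le
  have e5 : |c| * d < e / 3 := by
    have h6 : |c| * d < K * d := mul_lt_mul_of_pos_right (by rw [hK]; linarith) hd0
    linarith [mul_comm K d]
  set x1 := s * ∫ t in Ioi (0 : ℝ), f t * Real.exp (-s * t) * g (Real.exp (-s * t))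
  set x2 := s * ∫ t in Ioi (0 : ℝ), f t * Real.exp (-s * t) * p.eval (Real.exp (-s * t))
  set x3 := c * ∫ x in (0 : ℝ)..1, p.eval x
  set x4 := c * ∫ x in (0 : ℝ)..1, g x
  calc |x1 - x4| = |(x1 - x2) + (x2 - x3) + (x3 - x4)| := by ring_nf
    _ ≤ |x1 - x2| + |x2 - x3| + |x3 - x4| := abs_add_three _ _ _
    _ < e := by linarith

/-- the ramp divided by `x`: `0` for `x ≤ b`, `1 / x` for `a ≤ x` -/
noncomputable def gg (b a x : ℝ) : ℝ := min 1 (max 0 ((x - b) / (a - b))) / max x b

theorem gg_cont {b a : ℝ} (hb : 0 < b) : Continuous (gg b a) := by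
  unfold gg
  refine Continuous.div (by fun_prop) (by fun_prop) fun x => ?_
  have : 0 < max x b := lt_of_lt_of_le hb (le_max_right _ _)
  exact this.ne'

theorem gg_nonneg {b a : ℝ} (hb : 0 < b) (x : ℝ) : 0 ≤ gg b a x := by
  unfold gg
  have : 0 < max x b := lt_of_lt_of_le hb (le_max_right _ _)
  positivity

theorem gg_zero {b a x : ℝ} (hba : b < a) (hx : x ≤ b) : gg b a x = 0 := by
  unfold gg
  have h1 : (x - b) / (a - b) ≤ 0 := div_nonpos_of_nonpos_of_nonneg (by linarith) (by linarith)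
  rw [max_eq_left h1, min_eq_right zero_le_one, zero_div]

theorem gg_eq {b a x : ℝ} (hba : b < a) (hx : a ≤ x) : gg b a x = 1 / x := by
  unfold gg
  have h1 : 1 ≤ (x - b) / (a - b) := by
    rw [le_div_iff₀ (by linarith)]
    linarith
  rw [max_eq_right (by linarith), min_eq_left h1, max_eq_left (by linarith)]

theorem gg_le {b a x : ℝ} (hb : 0 < b) : gg b a x ≤ 1 / b := by
  unfold gg
  exact div_le_div₀ zero_le_one (min_le_left _ _) hb (le_max_right _ _)

theorem gg_le' {b a x : ℝ} (hb : 0 < b) (hx : 0 < x) : gg b a x ≤ 1 / x := by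
  unfold gg
  exact div_le_div₀ zero_le_one (min_le_left _ _) hx (le_max_left _ _)

theorem gg_upper {b a : ℝ} (hb : 0 < b) (hba : b < a) (ha : a < 1) :
    ∫ x in (0 : ℝ)..1, gg b a x ≤ (a - b) / b - Real.log a := by
  have hi : ∀ u v : ℝ, IntervalIntegrable (gg b a) volume u v := fun u v =>
    (gg_cont hb).intervalIntegrable _ _
  rw [← intervalIntegral.integral_add_adjacent_intervals (hi 0 b) (hi b 1),
    ← intervalIntegral.integral_add_adjacent_intervals (hi b a) (hi a 1)]
  have h1 : ∫ x in (0 : ℝ)..b, gg b a x = 0 := by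
    rw [intervalIntegral.integral_congr (g := fun _ => (0 : ℝ))]
    · simp
    · intro x hx
      rw [uIcc_of_le hb.le] at hx
      exact gg_zero hba hx.2
  have h2 : ∫ x in b..a, gg b a x ≤ (a - b) / b := by
    have h3 : ∫ x in b..a, gg b a x ≤ ∫ _x in b..a, 1 / b :=
      intervalIntegral.integral_mono_on hba.le (hi b a) (by simp) fun x _ => gg_le hb
    rw [intervalIntegral.integral_const, smul_eq_mul] at h3
    refine h3.trans (le_of_eq (by ring))
  have h3 : ∫ x in a..1, gg b a x = -Real.log a := by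
    have h4 : ∫ x in a..1, gg b a x = ∫ x in a..1, x⁻¹ := by
      refine intervalIntegral.integral_congr fun x hx => ?_
      rw [uIcc_of_le ha.le] at hx
      rw [gg_eq hba hx.1, one_div]
    rw [h4, integral_inv_of_pos (by linarith) one_pos, Real.log_div one_ne_zero (by linarith),
      Real.log_one, zero_sub]
  linarith

theorem gg_lower {b a : ℝ} (hb : 0 < b) (hba : b < a) (ha : a < 1) :
    -Real.log a ≤ ∫ x in (0 : ℝ)..1, gg b a x := by
  have hi : ∀ u v : ℝ, IntervalIntegrable (gg b a) volume u v := fun u v =>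
    (gg_cont hb).intervalIntegrable _ _
  rw [← intervalIntegral.integral_add_adjacent_intervals (hi 0 a) (hi a 1)]
  have h1 : 0 ≤ ∫ x in (0 : ℝ)..a, gg b a x :=
    intervalIntegral.integral_nonneg (by linarith) fun x _ => gg_nonneg hb x
  have h3 : ∫ x in a..1, gg b a x = -Real.log a := by
    have h4 : ∫ x in a..1, gg b a x = ∫ x in a..1, x⁻¹ := by
      refine intervalIntegral.integral_congr fun x hx => ?_
      rw [uIcc_of_le ha.le] at hx
      rw [gg_eq hba hx.1, one_div]
    rw [h4, integral_inv_of_pos (by linarith) one_pos, Real.log_div one_ne_zero (by linarith),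
      Real.log_one, zero_sub]
  linarith

end Kar

open Kar in
/-- K1. Karamata's Tauberian theorem (Mathlib only) -/
theorem karamata {f : ℝ → ℝ} (hf0 : ∀ t, 0 ≤ f t) (hfm : Measurable f) (c : ℝ)
    (hint : ∀ s : ℝ, 0 < s → IntegrableOn (fun t => f t * Real.exp (-s * t)) (Ioi (0 : ℝ)))
    (hlim : Tendsto (fun s : ℝ => s * ∫ t in Ioi (0 : ℝ), f t * Real.exp (-s * t)) (𝓝[>] 0) (𝓝 c)) :
    Tendsto (fun T : ℝ => (1 / T) * ∫ t in Ioc 0 T, f t) atTop (𝓝 c) := by
  have hc0 : 0 ≤ c := by
    refine ge_of_tendsto hlim ?_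
    filter_upwards [self_mem_nhdsWithin] with s hs
    exact mul_nonneg (le_of_lt hs) (setIntegral_nonneg measurableSet_Ioi fun t _ =>
      mul_nonneg (hf0 t) (Real.exp_pos _).le)
  have hfi : ∀ T : ℝ, 0 < T → IntegrableOn f (Ioc 0 T) := by
    intro T hT
    have h1 := (hint 1 one_pos).mono_set (Ioc_subset_Ioi_self : Ioc (0 : ℝ) T ⊆ Ioi 0)
    refine Integrable.mono' (h1.norm.const_mul (Real.exp T)) hfm.aestronglyMeasurable ?_
    filter_upwards [ae_restrict_mem measurableSet_Ioc] with t ht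
    rw [norm_mul, Real.norm_eq_abs, Real.norm_eq_abs, Real.abs_exp]
    have h2 : 1 ≤ Real.exp T * Real.exp (-1 * t) := by
      rw [← Real.exp_add]
      exact Real.one_le_exp (by linarith [ht.2])
    nlinarith [abs_nonneg (f t)]
  have hinv : Tendsto (fun T : ℝ => T⁻¹) atTop (𝓝[>] 0) := tendsto_inv_atTop_nhdsGT_zero
  set a : ℝ := Real.exp (-1) with ha
  have ha0 : 0 < a := Real.exp_pos _
  have ha1 : a < 1 := by
    rw [ha, Real.exp_lt_one_iff]
    norm_num
  -- the two comparisons
  have hup : ∀ b : ℝ, 0 < b → b < a → ∀ T : ℝ, 0 < T → (1 / T) * ∫ t in Ioc 0 T, f t ≤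
      T⁻¹ * ∫ t in Ioi (0 : ℝ), f t * Real.exp (-T⁻¹ * t) * gg b a (Real.exp (-T⁻¹ * t)) := by
    intro b hb hba T hT
    have hT' : 0 < T⁻¹ := inv_pos.2 hT
    rw [one_div]
    refine mul_le_mul_of_nonneg_left ?_ hT'.le
    have hI := int_weight hint (gg_cont (a := a) hb) hT'
    refine le_trans ?_ (setIntegral_mono_set hI ?_ (Ioc_subset_Ioi_self : Ioc (0 : ℝ) T ⊆ Ioi 0).eventuallyLE)
    · refine setIntegral_mono_on (hfi T hT) (hI.mono_set Ioc_subset_Ioi_self) measurableSet_Ioc ?_
      intro t ht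
      have h1 : a ≤ Real.exp (-T⁻¹ * t) := by
        rw [ha]
        refine Real.exp_le_exp.2 ?_
        have : T⁻¹ * t ≤ T⁻¹ * T := mul_le_mul_of_nonneg_left ht.2 hT'.le
        rw [inv_mul_cancel₀ hT.ne'] at this
        linarith
      rw [gg_eq hba h1]
      have h2 := (Real.exp_pos (-T⁻¹ * t)).ne'
      field_simp
      exact le_refl _
    · filter_upwards [ae_restrict_mem measurableSet_Ioi] with t _
      exact mul_nonneg (mul_nonneg (hf0 t) (Real.exp_pos _).le) (gg_nonneg hb _)
  have hlo : ∀ b : ℝ, a < b → b < 1 → ∀ T : ℝ, 0 < T →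
      T⁻¹ * ∫ t in Ioi (0 : ℝ), f t * Real.exp (-T⁻¹ * t) * gg a b (Real.exp (-T⁻¹ * t)) ≤
      (1 / T) * ∫ t in Ioc 0 T, f t := by
    intro b hab hb1 T hT
    have hT' : 0 < T⁻¹ := inv_pos.2 hT
    rw [one_div]
    refine mul_le_mul_of_nonneg_left ?_ hT'.le
    have hI := int_weight hint (gg_cont (a := b) ha0) hT'
    have h0 : ∫ t in Ioi (0 : ℝ), f t * Real.exp (-T⁻¹ * t) * gg a b (Real.exp (-T⁻¹ * t)) =
        ∫ t in Ioc 0 T, f t * Real.exp (-T⁻¹ * t) * gg a b (Real.exp (-T⁻¹ * t)) := by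
      rw [← Ioc_union_Ioi_eq_Ioi hT.le, setIntegral_union (Ioc_disjoint_Ioi le_rfl) measurableSet_Ioi
        (hI.mono_set Ioc_subset_Ioi_self) (hI.mono_set (Ioi_subset_Ioi hT.le))]
      have h5 : ∫ t in Ioi T, f t * Real.exp (-T⁻¹ * t) * gg a b (Real.exp (-T⁻¹ * t)) = 0 := by
        rw [setIntegral_congr_fun (g := fun _ => (0 : ℝ)) measurableSet_Ioi]
        · simp
        · intro t ht
          have h1 : Real.exp (-T⁻¹ * t) ≤ a := by
            rw [ha]
            refine Real.exp_le_exp.2 ?_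
            have : T⁻¹ * T ≤ T⁻¹ * t := mul_le_mul_of_nonneg_left (le_of_lt ht) hT'.le
            rw [inv_mul_cancel₀ hT.ne'] at this
            linarith
          simp only
          rw [gg_zero hab h1, mul_zero]
      rw [h5, add_zero]
    rw [h0]
    refine setIntegral_mono_on (hI.mono_set Ioc_subset_Ioi_self) (hfi T hT) measurableSet_Ioc ?_
    intro t ht
    have h2 := Real.exp_pos (-T⁻¹ * t)
    have h3 := gg_le' (b := a) (a := b) ha0 h2
    calc f t * Real.exp (-T⁻¹ * t) * gg a b (Real.exp (-T⁻¹ * t)) ≤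
        f t * Real.exp (-T⁻¹ * t) * (1 / Real.exp (-T⁻¹ * t)) :=
          mul_le_mul_of_nonneg_left h3 (mul_nonneg (hf0 t) h2.le)
      _ = f t := by
          have := h2.ne'
          field_simp
  -- conclusion
  rw [Metric.tendsto_nhds]
  intro e he
  -- upper
  obtain ⟨b, hb0, hba, hb⟩ : ∃ b, 0 < b ∧ b < a ∧ c * ((a - b) / b) < e / 2 := by
    have h1 : Tendsto (fun b : ℝ => c * ((a - b) / b)) (𝓝[<] a) (𝓝 (c * ((a - a) / a))) := by
      have : ContinuousAt (fun b : ℝ => c * ((a - b) / b)) a := by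
        refine ContinuousAt.mul continuousAt_const (ContinuousAt.div ?_ continuousAt_id ha0.ne')
        exact continuousAt_const.sub continuousAt_id
      exact this.tendsto.mono_left nhdsWithin_le_nhds
    rw [sub_self, zero_div, mul_zero] at h1
    have h2 := h1.eventually_lt_const (half_pos he)
    have h3 : ∀ᶠ b in 𝓝[<] a, b < a := self_mem_nhdsWithin
    have h4 : ∀ᶠ b in 𝓝[<] a, 0 < b := (lt_mem_nhds ha0).filter_mono nhdsWithin_le_nhds
    obtain ⟨b, h5, h6, h7⟩ := (h2.and (h3.and h4)).exists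
    exact ⟨b, h7, h6, h5⟩
  obtain ⟨b', hab', hb1', hb'⟩ : ∃ b', a < b' ∧ b' < 1 ∧ c - e / 2 < c * (-Real.log b') := by
    have h1 : Tendsto (fun b : ℝ => c * (-Real.log b)) (𝓝[>] a) (𝓝 (c * (-Real.log a))) := by
      have : ContinuousAt (fun b : ℝ => c * (-Real.log b)) a :=
        ContinuousAt.mul continuousAt_const (Real.continuousAt_log ha0.ne').neg
      exact this.tendsto.mono_left nhdsWithin_le_nhds
    have h0 : c - e / 2 < c * (-Real.log a) := by
      rw [ha, Real.log_exp]
      linarith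
    have h2 := h1.eventually_const_lt h0
    have h3 : ∀ᶠ b in 𝓝[>] a, a < b := self_mem_nhdsWithin
    have h4 : ∀ᶠ b in 𝓝[>] a, b < 1 := (gt_mem_nhds ha1).filter_mono nhdsWithin_le_nhds
    obtain ⟨b, h5, h6, h7⟩ := (h2.and (h3.and h4)).exists
    exact ⟨b, h6, h7, h5⟩
  have hU := ((cont_lim hf0 hint hlim (gg_cont (b := b) (a := a) hb0)).comp hinv)
  have hL := ((cont_lim hf0 hint hlim (gg_cont (b := a) (a := b') ha0)).comp hinv)
  have hU1 : c * ∫ x in (0 : ℝ)..1, gg b a x < c + e := by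
    have h1 := mul_le_mul_of_nonneg_left (gg_upper hb0 hba ha1) hc0
    have h2 : Real.log a = -1 := by rw [ha, Real.log_exp]
    rw [h2] at h1
    have h3 : c * ((a - b) / b - -1) = c * ((a - b) / b) + c := by ring
    linarith
  have hL1 : c - e < c * ∫ x in (0 : ℝ)..1, gg a b' x := by
    have h1 := mul_le_mul_of_nonneg_left (gg_lower ha0 hab' hb1') hc0
    linarith
  filter_upwards [hU.eventually_lt_const hU1, hL.eventually_const_lt hL1, eventually_gt_atTop 0]
    with T h1 h2 hT
  rw [Real.dist_eq, abs_lt]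
  simp only [Function.comp_def] at h1 h2
  have h3 := hup b hb0 hba T hT
  have h4 := hlo b' hab' hb1' T hT
  constructor <;> linarith

end Pool.Agent.Helper16.CR
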